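import Pool.Agent.Helper88.PP.Defs

set_option autoImplicit false

/-!
MP_120218_co, project PP (popular primes), module M6: spread subsets of finite sets of vectors.
-/

open Finset

namespace Pool.Agent.Helper68.PP

open Pool.Agent.Helper88.PP

/-- the slice of `V` over the first coordinate `c` -/
def sl {J : ℕ} (V : Finset (Fin (J + 1) → ℕ)) (c : ℕ) : Finset (Fin J → ℕ) :=
  (V.filter (fun v => v 0 = c)).image Fin.tail

/-- the set of the shapes of the uniform subtrees of `V` -/
def TT : (J : ℕ) → Finset (Fin J → ℕ) → Finset (Fin J → ℕ)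
  | 0, V => V
  | J + 1, V =>
    ((V.image (fun v => v 0)).biUnion (fun c => TT J (sl V c))).biUnion (fun b' =>
      (Icc 1 (((V.image (fun v => v 0)).filter (fun c => b' ∈ TT J (sl V c))).card)).image
        (fun β => (Fin.cons β b' : Fin (J + 1) → ℕ)))

theorem cons_inj_left {J : ℕ} (b' : Fin J → ℕ) :
    Function.Injective (fun β : ℕ => (Fin.cons β b' : Fin (J + 1) → ℕ)) := by
  intro x y h
  have := congrFun h 0
  simpa using this

theorem cons_inj_right {J : ℕ} (c : ℕ) :
    Function.Injective (fun b' : Fin J → ℕ => (Fin.cons c b' : Fin (J + 1) → ℕ)) := by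
  intro x y h
  have := congrArg Fin.tail h
  simpa using this

theorem card_sl {J : ℕ} (V : Finset (Fin (J + 1) → ℕ)) (c : ℕ) :
    (sl V c).card = (V.filter (fun v => v 0 = c)).card := by
  unfold sl
  apply card_image_of_injOn
  intro x hx y hy h
  have hx' := (mem_filter.1 (mem_coe.1 hx)).2
  have hy' := (mem_filter.1 (mem_coe.1 hy)).2
  rw [← Fin.cons_self_tail x, ← Fin.cons_self_tail y, h, hx', hy']

theorem card_TT (J : ℕ) (V : Finset (Fin J → ℕ)) : (TT J V).card = V.card := by
  induction J with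
  | zero => rfl
  | succ J ih =>
    unfold TT
    rw [card_biUnion]
    · have h1 : ∀ b' ∈ ((V.image (fun v => v 0)).biUnion (fun c => TT J (sl V c))),
          ((Icc 1 (((V.image (fun v => v 0)).filter (fun c => b' ∈ TT J (sl V c))).card)).image
            (fun β => (Fin.cons β b' : Fin (J + 1) → ℕ))).card =
          ((V.image (fun v => v 0)).filter (fun c => b' ∈ TT J (sl V c))).card := by
        intro b' _
        rw [card_image_of_injective _ (cons_inj_left b'), Nat.card_Icc]
        omega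
      rw [sum_congr rfl h1]
      have h2 := sum_card_bipartiteAbove_eq_sum_card_bipartiteBelow
        (s := (V.image (fun v => v 0)).biUnion (fun c => TT J (sl V c)))
        (t := V.image (fun v => v 0)) (fun b' c => b' ∈ TT J (sl V c))
      unfold bipartiteAbove bipartiteBelow at h2
      rw [h2]
      have h3 : ∀ c ∈ V.image (fun v => v 0),
          (((V.image (fun v => v 0)).biUnion (fun c => TT J (sl V c))).filter
            (fun b' => b' ∈ TT J (sl V c))).card = (V.filter (fun v => v 0 = c)).card := by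
        intro c hc
        rw [← card_sl, ← ih (sl V c)]
        congr 1
        ext b'
        simp only [mem_filter, mem_biUnion]
        constructor
        · exact fun h => h.2
        · exact fun h => ⟨⟨c, hc, h⟩, h⟩
      rw [sum_congr rfl h3, ← card_eq_sum_card_image (fun v : Fin (J + 1) → ℕ => v 0) V]
    · intro x _ y _ hxy
      refine disjoint_left.2 ?_
      intro z hz1 hz2
      obtain ⟨β, _, h1⟩ := mem_image.1 hz1
      obtain ⟨γ, _, h2⟩ := mem_image.1 hz2
      apply hxy
      have h3 := congrArg Fin.tail (h1.trans h2.symm)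
      simpa using h3

theorem mem_TT {J : ℕ} (V : Finset (Fin (J + 1) → ℕ)) (b : Fin (J + 1) → ℕ) :
    b ∈ TT (J + 1) V ↔ 1 ≤ b 0 ∧
      b 0 ≤ ((V.image (fun v => v 0)).filter (fun c => Fin.tail b ∈ TT J (sl V c))).card := by
  constructor
  · intro h
    unfold TT at h
    obtain ⟨b', _, h2⟩ := mem_biUnion.1 h
    obtain ⟨β, h3, rfl⟩ := mem_image.1 h2
    rw [mem_Icc] at h3
    simpa using h3
  · rintro ⟨h1, h2⟩
    unfold TT
    refine mem_biUnion.2 ⟨Fin.tail b, ?_, ?_⟩
    · have h3 : 0 < ((V.image (fun v => v 0)).filter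
          (fun c => Fin.tail b ∈ TT J (sl V c))).card := by omega
      obtain ⟨c, hc⟩ := card_pos.1 h3
      obtain ⟨hc1, hc2⟩ := mem_filter.1 hc
      exact mem_biUnion.2 ⟨c, hc1, hc2⟩
    · exact mem_image.2 ⟨b 0, mem_Icc.2 ⟨h1, h2⟩, Fin.cons_self_tail b⟩

theorem TT_pos {J : ℕ} {V : Finset (Fin J → ℕ)} {b : Fin J → ℕ} (h : b ∈ TT J V) (i : Fin J) :
    1 ≤ b i := by
  induction J with
  | zero => exact i.elim0
  | succ J ih =>
    obtain ⟨h1, h2⟩ := (mem_TT V b).1 h
    refine Fin.cases h1 (fun j => ?_) i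
    have h3 : 0 < ((V.image (fun v => v 0)).filter
        (fun c => Fin.tail b ∈ TT J (sl V c))).card := by omega
    obtain ⟨c, hc⟩ := card_pos.1 h3
    exact ih (mem_filter.1 hc).2 j

theorem TT_mono {J : ℕ} {V : Finset (Fin J → ℕ)} {b b' : Fin J → ℕ} (h : b ∈ TT J V)
    (h1 : ∀ i, 1 ≤ b' i) (h2 : ∀ i, b' i ≤ b i) : b' ∈ TT J V := by
  induction J with
  | zero =>
    have : b' = b := Subsingleton.elim _ _
    rwa [this]
  | succ J ih =>
    rw [mem_TT] at h ⊢
    refine ⟨h1 0, (h2 0).trans (h.2.trans (card_le_card ?_))⟩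
    intro c hc
    rw [mem_filter] at hc ⊢
    exact ⟨hc.1, ih hc.2 (fun i => h1 i.succ) (fun i => h2 i.succ)⟩

theorem card_glue {J : ℕ} (C : Finset ℕ) (W : ℕ → Finset (Fin J → ℕ)) (u : ℕ)
    (q : (Fin J → ℕ) → Prop) [DecidablePred q] :
    ((C.biUnion (fun c => (W c).image (fun v' => (Fin.cons c v' : Fin (J + 1) → ℕ)))).filter
      (fun v => v 0 = u ∧ q (Fin.tail v))).card = if u ∈ C then ((W u).filter q).card else 0 := by
  split_ifs with hu
  · rw [← card_image_of_injective _ (cons_inj_right (J := J) u)]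
    congr 1
    ext v
    simp only [mem_filter, mem_biUnion, mem_image]
    constructor
    · rintro ⟨⟨c, hc, v', hv', rfl⟩, h1, h2⟩
      have h3 : c = u := by simpa using h1
      subst h3
      exact ⟨v', ⟨hv', by simpa using h2⟩, rfl⟩
    · rintro ⟨v', ⟨hv', h2⟩, rfl⟩
      exact ⟨⟨u, hu, v', hv', rfl⟩, by simp, by simpa using h2⟩
  · rw [card_eq_zero, filter_eq_empty_iff]
    intro v hv
    rintro ⟨h1, _⟩
    obtain ⟨c, hc, hv2⟩ := mem_biUnion.1 hv
    obtain ⟨v', _, rfl⟩ := mem_image.1 hv2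
    apply hu
    have h3 : c = u := by simpa using h1
    rwa [← h3]

theorem TT_exists {J : ℕ} {V : Finset (Fin J → ℕ)} {b : Fin J → ℕ} (h : b ∈ TT J V) :
    ∃ V' ⊆ V, V'.card = ∏ i, b i ∧ Spr b V' := by
  induction J with
  | zero =>
    refine ⟨V, Subset.refl _, ?_, fun i => i.elim0⟩
    have h1 : V = {b} := by
      ext v
      rw [mem_singleton]
      have : v = b := Subsingleton.elim _ _
      subst this
      exact ⟨fun _ => rfl, fun _ => h⟩
    rw [h1]
    simp
  | succ J ih =>
    obtain ⟨h1, h2⟩ := (mem_TT V b).1 h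
    obtain ⟨C, hC1, hC2⟩ := exists_subset_card_eq h2
    have hW : ∀ c, ∃ W : Finset (Fin J → ℕ), c ∈ C → W ⊆ sl V c ∧
        W.card = ∏ i, (Fin.tail b) i ∧ Spr (Fin.tail b) W := by
      intro c
      by_cases hc : c ∈ C
      · obtain ⟨W, hW1, hW2, hW3⟩ := ih (mem_filter.1 (hC1 hc)).2
        exact ⟨W, fun _ => ⟨hW1, hW2, hW3⟩⟩
      · exact ⟨∅, fun h => absurd h hc⟩
    choose W hW using hW
    have hcard : (C.biUnion (fun c => (W c).image
        (fun v' => (Fin.cons c v' : Fin (J + 1) → ℕ)))).card = b 0 * ∏ i, (Fin.tail b) i := by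
      rw [card_biUnion]
      · rw [← hC2, card_eq_sum_ones, sum_mul]
        refine sum_congr rfl fun c hc => ?_
        rw [card_image_of_injective _ (cons_inj_right (J := J) c), (hW c hc).2.1, one_mul]
      · intro x _ y _ hxy
        refine disjoint_left.2 ?_
        intro z hz1 hz2
        obtain ⟨v, _, h3⟩ := mem_image.1 hz1
        obtain ⟨w, _, h4⟩ := mem_image.1 hz2
        apply hxy
        have h5 := congrFun (h3.trans h4.symm) 0
        simpa using h5
    refine ⟨C.biUnion (fun c => (W c).image (fun v' => (Fin.cons c v' : Fin (J + 1) → ℕ))),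
      ?_, ?_, ?_⟩
    · intro v hv
      obtain ⟨c, hc, hv2⟩ := mem_biUnion.1 hv
      obtain ⟨v', hv', rfl⟩ := mem_image.1 hv2
      obtain ⟨w, hw, hw2⟩ := mem_image.1 ((hW c hc).1 hv')
      obtain ⟨hw3, hw4⟩ := mem_filter.1 hw
      rw [← hw2, ← hw4, Fin.cons_self_tail]
      exact hw3
    · rw [hcard, Fin.prod_univ_succ]
      rfl
    · intro i u
      refine Fin.cases ?_ (fun j => ?_) i
      · have e1 : ((C.biUnion (fun c => (W c).image
            (fun v' => (Fin.cons c v' : Fin (J + 1) → ℕ)))).filter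
              (fun v => ∀ l, l ≤ 0 → v l = u l)).card =
            if u 0 ∈ C then ((W (u 0)).filter (fun _ => True)).card else 0 := by
          rw [← card_glue C W (u 0) (fun _ => True)]
          refine congrArg card (filter_congr ?_)
          intro v _
          constructor
          · exact fun h => ⟨h 0 le_rfl, trivial⟩
          · intro h l hl
            rw [Fin.le_zero_iff] at hl
            rw [hl]; exact h.1
        have e2 : (C.biUnion (fun c => (W c).image
            (fun v' => (Fin.cons c v' : Fin (J + 1) → ℕ)))).filter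
              (fun v => ∀ l, l < 0 → v l = u l) =
            (C.biUnion (fun c => (W c).image
            (fun v' => (Fin.cons c v' : Fin (J + 1) → ℕ)))) := by
          apply filter_true_of_mem
          intro v _ l hl
          exact absurd hl (Fin.not_lt_zero l)
        rw [e1, e2, hcard]
        split_ifs with hu
        · rw [filter_true_of_mem (fun _ _ => trivial), (hW _ hu).2.1]
        · rw [mul_zero]; exact Nat.zero_le _
      · have e1 : ((C.biUnion (fun c => (W c).image
            (fun v' => (Fin.cons c v' : Fin (J + 1) → ℕ)))).filter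
              (fun v => ∀ l, l ≤ j.succ → v l = u l)).card =
            if u 0 ∈ C then ((W (u 0)).filter
              (fun v' => ∀ l, l ≤ j → v' l = (Fin.tail u) l)).card else 0 := by
          rw [← card_glue C W (u 0) (fun v' => ∀ l, l ≤ j → v' l = (Fin.tail u) l)]
          refine congrArg card (filter_congr ?_)
          intro v _
          constructor
          · exact fun h => ⟨h 0 (Fin.zero_le _), fun l hl => h l.succ (Fin.succ_le_succ_iff.2 hl)⟩
          · intro h l
            refine Fin.cases (fun _ => h.1) (fun l' hl => ?_) l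
            exact h.2 l' (Fin.succ_le_succ_iff.1 hl)
        have e2 : ((C.biUnion (fun c => (W c).image
            (fun v' => (Fin.cons c v' : Fin (J + 1) → ℕ)))).filter
              (fun v => ∀ l, l < j.succ → v l = u l)).card =
            if u 0 ∈ C then ((W (u 0)).filter
              (fun v' => ∀ l, l < j → v' l = (Fin.tail u) l)).card else 0 := by
          rw [← card_glue C W (u 0) (fun v' => ∀ l, l < j → v' l = (Fin.tail u) l)]
          refine congrArg card (filter_congr ?_)
          intro v _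
          constructor
          · exact fun h => ⟨h 0 (Fin.succ_pos _), fun l hl => h l.succ (Fin.succ_lt_succ_iff.2 hl)⟩
          · intro h l
            refine Fin.cases (fun _ => h.1) (fun l' hl => ?_) l
            exact h.2 l' (Fin.succ_lt_succ_iff.1 hl)
        rw [e1, e2]
        split_ifs with hu
        · exact (hW _ hu).2.2 j (Fin.tail u)
        · rw [mul_zero]

theorem exists_between {J : ℕ} (b : Fin J → ℕ) (s : ℕ) (hb : ∀ i, 1 ≤ b i) (hs : J ≤ s)
    (hs2 : s ≤ ∑ i, b i) : ∃ b' : Fin J → ℕ, (∀ i, 1 ≤ b' i) ∧ (∀ i, b' i ≤ b i) ∧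
      ∑ i, b' i = s := by
  obtain ⟨n, hn⟩ : ∃ n, ∑ i, b i = s + n := ⟨_, (Nat.add_sub_cancel' hs2).symm⟩
  induction n generalizing b with
  | zero => exact ⟨b, hb, fun _ => le_rfl, hn⟩
  | succ n ih =>
    obtain ⟨i, hi⟩ : ∃ i, 2 ≤ b i := by
      by_contra hcon
      push Not at hcon
      have h1 : ∀ i ∈ (univ : Finset (Fin J)), b i = 1 := fun i _ => by
        have := hb i; have := hcon i; omega
      rw [sum_congr rfl h1] at hn
      simp at hn
      omega
    have hsum : ∑ l, Function.update b i (b i - 1) l = s + n := by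
      rw [sum_update_of_mem (mem_univ i)]
      rw [← add_sum_erase _ _ (mem_univ i)] at hn
      rw [sdiff_singleton_eq_erase]
      omega
    obtain ⟨b', h1, h2, h3⟩ := ih (Function.update b i (b i - 1)) (fun l => by
      rw [Function.update_apply]
      split_ifs with h
      · omega
      · exact hb l) (by rw [hsum]; omega) hsum
    refine ⟨b', h1, fun l => (h2 l).trans ?_, h3⟩
    rw [Function.update_apply]
    split_ifs with h
    · rw [h]; omega
    · exact le_rfl

theorem treeLemma : TreeLemma := by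
  intro J m V hJ hm hV
  rw [← card_TT J V] at hV
  obtain ⟨b, hb1, hb2⟩ := exists_mem_notMem_of_card_lt_card hV
  have hpos := TT_pos hb1
  have hsum : m + 1 ≤ ∑ i, b i := by
    by_contra hcon
    apply hb2
    unfold boxes
    rw [mem_filter, Fintype.mem_piFinset]
    refine ⟨fun i => mem_Icc.2 ⟨hpos i, ?_⟩, by omega⟩
    have : b i ≤ ∑ i, b i := single_le_sum (fun _ _ => Nat.zero_le _) (mem_univ i)
    omega
  obtain ⟨b', h1, h2, h3⟩ := exists_between b (m + 1) hpos (by omega) hsum
  obtain ⟨V', h4, h5, h6⟩ := TT_exists (TT_mono hb1 h1 h2)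
  refine ⟨b', h1, h3, V', h4, ?_, h6⟩
  rw [← card_pos, h5]
  exact prod_pos fun i _ => h1 i

theorem sum_exp_le (t : ℝ) (m : ℕ) :
    t * ∑ b ∈ Icc 1 m, Real.exp (-(t * b)) ≤ 1 - Real.exp (-(t * m)) := by
  induction m with
  | zero => simp
  | succ m ih =>
    rw [sum_Icc_succ_top (by omega), mul_add]
    have h1 : t * Real.exp (-(t * ((m + 1 : ℕ) : ℝ))) ≤
        Real.exp (-(t * m)) - Real.exp (-(t * ((m + 1 : ℕ) : ℝ))) := by
      have h2 : Real.exp (-(t * m)) = Real.exp t * Real.exp (-(t * ((m + 1 : ℕ) : ℝ))) := by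
        rw [← Real.exp_add]
        congr 1
        push_cast
        ring
      rw [h2]
      have h3 := Real.add_one_le_exp t
      have h4 := Real.exp_pos (-(t * ((m + 1 : ℕ) : ℝ)))
      nlinarith
    linarith

theorem treeCount : TreeCount := by
  intro J m hJ hm
  have hJ' : (0 : ℝ) < J := by exact_mod_cast hJ
  have hm' : (0 : ℝ) < m := by
    have : 0 < m := by omega
    exact_mod_cast this
  obtain ⟨t, ht⟩ : ∃ t : ℝ, t = J / m := ⟨_, rfl⟩
  have ht0 : 0 < t := by rw [ht]; positivity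
  have htm : t * m = J := by rw [ht]; field_simp
  have h1 : ((boxes J m).card : ℝ) ≤ ∑ b ∈ boxes J m,
      Real.exp (t * m) * ∏ i, Real.exp (-(t * b i)) := by
    rw [card_eq_sum_ones]
    push_cast
    refine sum_le_sum fun b hb => ?_
    have hb2 := (mem_filter.1 hb).2
    rw [← Real.exp_sum, ← Real.exp_add]
    rw [← Real.exp_zero]
    apply Real.exp_le_exp.2
    rw [sum_neg_distrib, ← mul_sum]
    have h3 : ((∑ i, b i : ℕ) : ℝ) ≤ m := by exact_mod_cast hb2
    push_cast at h3
    nlinarith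
  have h2 : ∑ b ∈ boxes J m, Real.exp (t * m) * ∏ i, Real.exp (-(t * b i)) ≤
      ∑ b ∈ Fintype.piFinset (fun _ : Fin J => Icc 1 m),
        Real.exp (t * m) * ∏ i, Real.exp (-(t * b i)) := by
    refine sum_le_sum_of_subset_of_nonneg (filter_subset _ _) fun b _ _ => ?_
    exact mul_nonneg (Real.exp_pos _).le (prod_nonneg fun i _ => (Real.exp_pos _).le)
  have h2' : ∑ b ∈ Fintype.piFinset (fun _ : Fin J => Icc 1 m),
      Real.exp (t * m) * ∏ i, Real.exp (-(t * b i)) =
      Real.exp (t * m) * ∏ _i : Fin J, ∑ b ∈ Icc 1 m, Real.exp (-(t * (b : ℝ))) := by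
    rw [← mul_sum, prod_univ_sum]
  rw [h2'] at h2
  have h3 : ∑ b ∈ Icc 1 m, Real.exp (-(t * b)) ≤ m / J := by
    have h4 := sum_exp_le t m
    have h5 : t * ∑ b ∈ Icc 1 m, Real.exp (-(t * b)) ≤ 1 := by
      have := Real.exp_pos (-(t * m))
      linarith
    rw [le_div_iff₀ hJ', ← htm]
    calc (∑ b ∈ Icc 1 m, Real.exp (-(t * b))) * (t * m) =
        (t * ∑ b ∈ Icc 1 m, Real.exp (-(t * b))) * m := by ring
      _ ≤ 1 * m := mul_le_mul_of_nonneg_right h5 hm'.le
      _ = m := one_mul _
  have h6 : ∏ i : Fin J, ∑ b ∈ Icc 1 m, Real.exp (-(t * (b : ℝ))) ≤ ((m : ℝ) / J) ^ J := by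
    rw [prod_const, card_univ, Fintype.card_fin]
    exact pow_le_pow_left₀ (sum_nonneg fun b _ => (Real.exp_pos _).le) h3 J
  have h7 : Real.exp (t * m) = Real.exp 1 ^ J := by
    rw [htm, ← Real.exp_nat_mul, mul_one]
  refine h1.trans (h2.trans ?_)
  rw [h7, mul_div_assoc, mul_pow]
  exact mul_le_mul_of_nonneg_left h6 (pow_nonneg (Real.exp_pos 1).le _)

theorem boxes_mono (J m : ℕ) : boxes J m ⊆ boxes J (m + 1) := by
  intro b hb
  unfold boxes at hb ⊢
  rw [mem_filter, Fintype.mem_piFinset] at hb ⊢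
  refine ⟨fun i => ?_, by omega⟩
  have := mem_Icc.1 (hb.1 i)
  exact mem_Icc.2 ⟨this.1, by omega⟩

theorem mem_boxes {J m : ℕ} {b : Fin J → ℕ} (h1 : ∀ i, 1 ≤ b i) (h2 : ∑ i, b i ≤ m) :
    b ∈ boxes J m := by
  unfold boxes
  rw [mem_filter, Fintype.mem_piFinset]
  refine ⟨fun i => mem_Icc.2 ⟨h1 i, ?_⟩, h2⟩
  have : b i ≤ ∑ i, b i := single_le_sum (fun _ _ => Nat.zero_le _) (mem_univ i)
  omega

theorem sprC_empty {J : ℕ} (κ : ℤ → ℤ) (v : ℤ → Fin J → ℕ) (b : Fin J → ℕ) :
    SprC κ v b ∅ := by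
  intro y i u
  simp

theorem sprC_union {J : ℕ} {κ : ℤ → ℤ} {v : ℤ → Fin J → ℕ} {b : Fin J → ℕ} {B B' : Finset ℤ}
    (h : SprC κ v b B) (h' : SprC κ v b B') (hd : Disjoint B B') : SprC κ v b (B ∪ B') := by
  intro y i u
  rw [filter_union, filter_union, card_union_of_disjoint (disjoint_filter_filter hd),
    card_union_of_disjoint (disjoint_filter_filter hd), mul_add]
  exact add_le_add (h y i u) (h' y i u)

theorem sprC_of_spr {J : ℕ} {κ : ℤ → ℤ} {v : ℤ → Fin J → ℕ} {b : Fin J → ℕ} {y : ℤ}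
    {S : Finset ℤ} (hS : ∀ x ∈ S, κ x = y) (hinj : Set.InjOn v S) {V' : Finset (Fin J → ℕ)}
    (hV : V' ⊆ S.image v) (h : Spr b V') : SprC κ v b (S.filter (fun x => v x ∈ V')) := by
  have key : ∀ (P : (Fin J → ℕ) → Prop) [DecidablePred P],
      ((S.filter (fun x => v x ∈ V')).filter (fun x => κ x = y ∧ P (v x))).card =
        (V'.filter P).card := by
    intro P _
    rw [← card_image_of_injOn (s := (S.filter (fun x => v x ∈ V')).filter
      (fun x => κ x = y ∧ P (v x))) (f := v)]
    · congr 1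
      ext w
      simp only [mem_filter, mem_image]
      constructor
      · rintro ⟨x, ⟨⟨_, h2⟩, _, h4⟩, rfl⟩
        exact ⟨h2, h4⟩
      · rintro ⟨h1, h2⟩
        obtain ⟨x, hx, rfl⟩ := mem_image.1 (hV h1)
        exact ⟨x, ⟨⟨hx, h1⟩, hS x hx, h2⟩, rfl⟩
    · intro x hx x' hx' he
      have h1 := (mem_filter.1 (mem_filter.1 (mem_coe.1 hx)).1).1
      have h2 := (mem_filter.1 (mem_filter.1 (mem_coe.1 hx')).1).1
      exact hinj h1 h2 he
  intro y' i u
  by_cases hy : y' = y
  · subst hy
    rw [key (fun w => ∀ l, l ≤ i → w l = u l), key (fun w => ∀ l, l < i → w l = u l)]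
    exact h i u
  · have h0 : (S.filter (fun x => v x ∈ V')).filter
        (fun x => κ x = y' ∧ ∀ l, l ≤ i → v x l = u l) = ∅ := by
      rw [filter_eq_empty_iff]
      rintro x hx ⟨h1, _⟩
      apply hy
      rw [← h1, hS x (mem_filter.1 hx).1]
    rw [h0, card_empty, mul_zero]
    exact Nat.zero_le _

theorem select : Select := by
  classical
  intro J m κ v A hJ hm hinj hcls
  obtain ⟨Bs, hBs⟩ : ∃ Bs : Finset (Fin J → ℕ),
      Bs = (boxes J (m + 1)).filter (fun b => ∑ i, b i = m + 1) := ⟨_, rfl⟩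
  have hBs1 : ∀ b ∈ Bs, (∀ i, 1 ≤ b i) ∧ ∑ i, b i = m + 1 := by
    intro b hb
    rw [hBs, mem_filter] at hb
    refine ⟨fun i => ?_, hb.2⟩
    have := hb.1
    unfold boxes at this
    rw [mem_filter, Fintype.mem_piFinset] at this
    exact (mem_Icc.1 (this.1 i)).1
  have hBs2 : ∀ b : Fin J → ℕ, (∀ i, 1 ≤ b i) → ∑ i, b i = m + 1 → b ∈ Bs := by
    intro b h1 h2
    rw [hBs, mem_filter]
    exact ⟨mem_boxes h1 h2.le, h2⟩
  have hne : Bs.Nonempty := by
    obtain ⟨b, h1, _, h3⟩ := exists_between (fun _ : Fin J => m + 1) (m + 1)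
      (fun _ => by omega) (by omega) (by
        rw [sum_const, card_univ, Fintype.card_fin, smul_eq_mul]
        exact Nat.le_mul_of_pos_left _ (by omega))
    exact ⟨b, hBs2 b h1 h3⟩
  have hmax : ∀ b : Fin J → ℕ, ∃ B : Finset ℤ, B ⊆ A ∧ SprC κ v b B ∧
      ∀ B' ⊆ A, SprC κ v b B' → B'.card ≤ B.card := by
    intro b
    obtain ⟨B, hB, hB2⟩ := exists_max_image (A.powerset.filter (fun B => SprC κ v b B))
      (fun B => B.card) ⟨∅, by simp [sprC_empty]⟩
    rw [mem_filter, mem_powerset] at hB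
    refine ⟨B, hB.1, hB.2, fun B' h1 h2 => hB2 B' ?_⟩
    rw [mem_filter, mem_powerset]
    exact ⟨h1, h2⟩
  choose F hF1 hF2 hF3 using hmax
  obtain ⟨U, hU⟩ : ∃ U : Finset ℤ, U = Bs.biUnion F := ⟨_, rfl⟩
  have hsmall : ∀ y, ((A.filter (fun x => κ x = y)).filter (fun x => x ∉ U)).card ≤
      (boxes J m).card := by
    intro y
    by_contra hcon
    rw [not_le] at hcon
    obtain ⟨S, hS⟩ : ∃ S : Finset ℤ, S = (A.filter (fun x => κ x = y)).filter
      (fun x => x ∉ U) := ⟨_, rfl⟩
    have hSA : ∀ x ∈ S, x ∈ A ∧ κ x = y ∧ x ∉ U := by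
      intro x hx
      rw [hS, mem_filter, mem_filter] at hx
      exact ⟨hx.1.1, hx.1.2, hx.2⟩
    have hinjS : Set.InjOn v S := by
      intro x hx x' hx' he
      have h1 := hSA x (mem_coe.1 hx)
      have h2 := hSA x' (mem_coe.1 hx')
      exact hinj x h1.1 x' h2.1 (h1.2.1.trans h2.2.1.symm) he
    rw [← hS, ← card_image_of_injOn hinjS] at hcon
    obtain ⟨b, hb1, hb2, V', hV1, ⟨w, hw⟩, hV3⟩ := treeLemma J m (S.image v) hJ hm hcon
    have h1 := sprC_of_spr (κ := κ) (fun x hx => (hSA x hx).2.1) hinjS hV1 hV3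
    have hbB := hBs2 b hb1 hb2
    have hd : Disjoint (F b) (S.filter (fun x => v x ∈ V')) := by
      rw [disjoint_left]
      intro x hx1 hx2
      apply (hSA x (mem_filter.1 hx2).1).2.2
      rw [hU]
      exact mem_biUnion.2 ⟨b, hbB, hx1⟩
    have h2 := hF3 b (F b ∪ S.filter (fun x => v x ∈ V'))
      (union_subset (hF1 b) (fun x hx => (hSA x (mem_filter.1 hx).1).1))
      (sprC_union (hF2 b) h1 hd)
    rw [card_union_of_disjoint hd] at h2
    have h3 : 0 < (S.filter (fun x => v x ∈ V')).card := by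
      rw [card_pos]
      obtain ⟨x, hx, rfl⟩ := mem_image.1 (hV1 hw)
      exact ⟨x, mem_filter.2 ⟨hx, hw⟩⟩
    omega
  have hclass : ∀ y ∈ A.image κ, (A.filter (fun x => κ x = y)).card ≤
      2 * ((A.filter (fun x => x ∈ U)).filter (fun x => κ x = y)).card := by
    intro y hy
    obtain ⟨x, hx, rfl⟩ := mem_image.1 hy
    have h1 := hcls x hx
    have h2 := hsmall (κ x)
    have h3 := card_le_card (boxes_mono J m)
    have h4 := card_filter_add_card_filter_not (s := A.filter (fun x' => κ x' = κ x))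
      (fun x => x ∈ U)
    have h5 : (A.filter (fun x' => κ x' = κ x)).filter (fun x => x ∈ U) =
        (A.filter (fun x => x ∈ U)).filter (fun x' => κ x' = κ x) := filter_comm _ _ _
    rw [h5] at h4
    omega
  have hA : A.card ≤ 2 * (A.filter (fun x => x ∈ U)).card := by
    rw [card_eq_sum_card_image κ A, card_eq_sum_card_fiberwise (f := κ)
      (s := A.filter (fun x => x ∈ U)) (t := A.image κ)
      (fun x hx => mem_image_of_mem κ (mem_filter.1 (mem_coe.1 hx)).1), mul_sum]
    exact sum_le_sum hclass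
  obtain ⟨b0, hb0, hb0max⟩ := exists_max_image Bs (fun b => (F b).card) hne
  refine ⟨b0, (hBs1 b0 hb0).1, (hBs1 b0 hb0).2, F b0, hF1 b0, hF2 b0, ?_⟩
  have h1 : (A.filter (fun x => x ∈ U)).card ≤ U.card := by
    apply card_le_card
    intro x hx
    exact (mem_filter.1 hx).2
  have h2 : U.card ≤ Bs.card * (F b0).card := by
    rw [hU]
    exact card_biUnion_le_card_mul _ _ _ fun b hb => hb0max b hb
  have h3 : Bs.card ≤ (boxes J (m + 1)).card := by
    rw [hBs]; exact card_le_card (filter_subset _ _)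
  calc A.card ≤ 2 * (A.filter (fun x => x ∈ U)).card := hA
    _ ≤ 2 * (Bs.card * (F b0).card) := Nat.mul_le_mul_left 2 (h1.trans h2)
    _ ≤ 2 * ((boxes J (m + 1)).card * (F b0).card) :=
        Nat.mul_le_mul_left 2 (Nat.mul_le_mul_right _ h3)
    _ = _ := by ring

end Pool.Agent.Helper68.PP
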